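import Pool.Agent.Work.MP_f6f9f1_co.Checks

set_option autoImplicit false

namespace Pool.Agent.Work.MP_f6f9f1_co

/-- iterates of the morphism -/
def it (h : Bool → List Bool) (k : ℕ) (u : List Bool) : List Bool :=
  (fun v : List Bool => v.flatMap h)^[k] u

lemma it_zero (h : Bool → List Bool) (u : List Bool) : it h 0 u = u := rfl

lemma it_succ (h : Bool → List Bool) (k : ℕ) (u : List Bool) :
    it h (k + 1) u = it h k (u.flatMap h) := by
  unfold it
  rw [Function.iterate_succ_apply]

lemma it_succ' (h : Bool → List Bool) (k : ℕ) (u : List Bool) :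
    it h (k + 1) u = (it h k u).flatMap h := by
  unfold it
  rw [Function.iterate_succ_apply']

lemma it_append (h : Bool → List Bool) (k : ℕ) (u v : List Bool) :
    it h k (u ++ v) = it h k u ++ it h k v := by
  induction k generalizing u v with
  | zero => rfl
  | succ k ih => rw [it_succ, it_succ, it_succ, List.flatMap_append, ih]

lemma it_nil (h : Bool → List Bool) (k : ℕ) : it h k [] = [] := by
  induction k with
  | zero => rfl
  | succ k ih => rw [it_succ, List.flatMap_nil, ih]

lemma it_flatMap (h : Bool → List Bool) (k : ℕ) (u : List Bool) :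
    u.flatMap (fun c => it h k [c]) = it h k u := by
  induction u with
  | nil => rw [List.flatMap_nil, it_nil]
  | cons a t ih =>
    rw [List.flatMap_cons, ih, ← it_append]
    rfl

lemma it_single_succ (h : Bool → List Bool) (k : ℕ) (c : Bool) :
    it h (k + 1) [c] = it h k (h c) := by
  rw [it_succ, List.flatMap_singleton]

lemma Lang.it {ℒ : List Bool → Prop} {h : Bool → List Bool} (L : Lang ℒ h) (k : ℕ) :
    Lang ℒ (fun c => it h k [c]) := by
  refine ⟨L.fac, fun u hu => ?_, L.ext⟩
  rw [it_flatMap]
  induction k with
  | zero => exact hu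
  | succ k ih => rw [it_succ']; exact L.mor _ ih

lemma cube_of_single {ℒ : List Bool → Prop} (u : List Bool) (hu : u ≠ [])
    (h : ℒ (u ++ u ++ u)) : HasCube ℒ :=
  ⟨u, u, u, hu, hu, hu, E2.refl u, E2.refl u, h⟩

lemma Lang.left {ℒ : List Bool → Prop} {h : Bool → List Bool} (L : Lang ℒ h) {a b : List Bool}
    (hab : ℒ (a ++ b)) : ℒ a := L.fac [] a b (by simpa using hab)

lemma Lang.right {ℒ : List Bool → Prop} {h : Bool → List Bool} (L : Lang ℒ h) {a b : List Bool}
    (hab : ℒ (a ++ b)) : ℒ b := L.fac a b [] (by simpa using hab)

lemma ext_false {ℒ : List Bool → Prop} {h : Bool → List Bool} (L : Lang ℒ h)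
    (hnc : ¬ HasCube ℒ) {u : List Bool} (hu : ℒ u) :
    ∃ j, ℒ (u ++ List.replicate j true ++ [false]) := by
  obtain ⟨v1, h1⟩ := L.ext u hu
  cases v1 with
  | false => exact ⟨0, by simpa using h1⟩
  | true =>
    obtain ⟨v2, h2⟩ := L.ext _ h1
    cases v2 with
    | false => exact ⟨1, by simpa using h2⟩
    | true =>
      obtain ⟨v3, h3⟩ := L.ext _ h2
      cases v3 with
      | false => exact ⟨2, by simpa using h3⟩
      | true =>
        exfalso
        refine hnc (cube_of_single [true] (by simp) ?_)
        refine L.right (a := u) ?_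
        simpa using h3

lemma last_false (u : List Bool) (hu : false ∈ u) :
    ∃ z j, u = z ++ [false] ++ List.replicate j true := by
  induction u using List.reverseRecOn with
  | nil => simp at hu
  | append_singleton u b ih =>
    cases b with
    | false => exact ⟨u, 0, by simp⟩
    | true =>
      have : false ∈ u := by simpa using hu
      obtain ⟨z, j, hz⟩ := ih this
      refine ⟨z, j + 1, ?_⟩
      rw [hz, List.replicate_succ']
      simp

lemma all_true (u : List Bool) (hu : false ∉ u) : u = List.replicate u.length true := by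
  rw [List.eq_replicate_iff]
  refine ⟨rfl, fun b hb => ?_⟩
  cases b with
  | false => exact absurd hb hu
  | true => rfl

lemma exists_last (u : List Bool) (hu : u ≠ []) : ∃ w s, u = w ++ [s] := by
  rcases List.eq_nil_or_concat u with h | ⟨w, s, h⟩
  · exact absurd h hu
  · exact ⟨w, s, by simpa using h⟩

lemma it_head {h : Bool → List Bool} {c : Bool} (hc : ∃ r, h c = c :: r) (k : ℕ) :
    ∃ r, it h k [c] = c :: r := by
  obtain ⟨r', hr'⟩ := hc
  induction k with
  | zero => exact ⟨[], rfl⟩
  | succ k ih =>
    obtain ⟨r, hr⟩ := ih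
    refine ⟨r ++ it h k r', ?_⟩
    have : (c :: r') = [c] ++ r' := rfl
    rw [it_single_succ, hr', this, it_append, hr]
    rfl

lemma it_last {h : Bool → List Bool} {σ : Bool → Bool} (hσ : ∀ c, ∃ w, h c = w ++ [σ c])
    (k : ℕ) : ∀ c, ∃ r, it h k [c] = r ++ [σ^[k] c] := by
  induction k with
  | zero => intro c; exact ⟨[], rfl⟩
  | succ k ih =>
    intro c
    obtain ⟨w, hw⟩ := hσ c
    obtain ⟨r, hr⟩ := ih (σ c)
    refine ⟨it h k w ++ r, ?_⟩
    rw [it_single_succ, hw, it_append, hr, Function.iterate_succ_apply]
    simp

/-- a word that starts and ends with `c`, of length at least `d + 3`, decomposes -/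
lemma decomp {g : List Bool} {c : Bool} {d : ℕ} (h1 : ∃ r, g = c :: r) (h2 : ∃ r, g = r ++ [c])
    (hl : d + 3 ≤ g.length) : ∃ M : List Bool, d < M.length ∧ g = [c] ++ M ++ [c] := by
  obtain ⟨r, rfl⟩ := h1
  obtain ⟨r', hr'⟩ := h2
  cases r' with
  | nil => simp at hr'; subst hr'; simp at hl
  | cons a M =>
    have : a = c ∧ r = M ++ [c] := by
      simpa [eq_comm] using hr'
    obtain ⟨rfl, rfl⟩ := this
    refine ⟨M, ?_, by simp⟩
    simp only [List.length_cons, List.length_append, List.length_nil] at hl
    omega

lemma apply_tree {ℒ : List Bool → Prop} {g : Bool → List Bool} (L : Lang ℒ g)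
    (hf : ℒ [false]) (ht : ℒ [true]) (hnil : ℒ []) (t : Tree) (R0 R1 l0 l1 : List Bool)
    (hc : check t ⟨R0, R1, l0, l1, [], 0⟩ = true) (M0 M1 : List Bool)
    (h0 : depth t < M0.length) (h1 : depth t < M1.length) (e0 : g false = R0 ++ M0 ++ l0)
    (e1 : g true = R1 ++ M1 ++ l1) : HasCube ℒ :=
  check_sound L hf ht t _ hc ⟨M0, M1, h0, h1, e0, fun _ => e1, fun hh => absurd hh (by simp),
    fun hh => absurd rfl hh, hnil⟩

/-- case: both letters have growing images, common first letter -/
lemma case_prefix {ℒ : List Bool → Prop} {h : Bool → List Bool} (L : Lang ℒ h)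
    (hf : ℒ [false]) (ht : ℒ [true]) (hnil : ℒ []) {w r : List Bool}
    (h0 : h false = false :: w) (h1 : h true = false :: r)
    (growth : ∀ k, k + 1 ≤ (it h k [false]).length) : HasCube ℒ := by
  have hP := growth (depth treeA0 + depth treeA1 + 3)
  obtain ⟨r0, hr0⟩ := it_head (h := h) (c := false) ⟨w, h0⟩ (depth treeA0 + depth treeA1 + 3)
  cases r0 with
  | nil => rw [hr0] at hP; simp at hP
  | cons p P' =>
    rw [hr0] at hP
    have e0 : it h (depth treeA0 + depth treeA1 + 3 + 1) [false] =
        [false, p] ++ (P' ++ it h (depth treeA0 + depth treeA1 + 3) w) ++ [] := by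
      rw [it_single_succ, h0]
      have : (false :: w) = [false] ++ w := rfl
      rw [this, it_append, hr0]; simp
    have e1 : it h (depth treeA0 + depth treeA1 + 3 + 1) [true] =
        [false, p] ++ (P' ++ it h (depth treeA0 + depth treeA1 + 3) r) ++ [] := by
      rw [it_single_succ, h1]
      have : (false :: r) = [false] ++ r := rfl
      rw [this, it_append, hr0]; simp
    simp only [List.length_cons] at hP
    cases p with
    | false =>
      refine apply_tree (L.it _) hf ht hnil treeA0 _ _ _ _ checkA0 _ _ ?_ ?_ e0 e1
      · rw [List.length_append]; omega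
      · rw [List.length_append]; omega
    | true =>
      refine apply_tree (L.it _) hf ht hnil treeA1 _ _ _ _ checkA1 _ _ ?_ ?_ e0 e1
      · rw [List.length_append]; omega
      · rw [List.length_append]; omega

/-- case: both letters have growing images, common last letter -/
lemma case_suffix {ℒ : List Bool → Prop} {h : Bool → List Bool} (L : Lang ℒ h)
    (hf : ℒ [false]) (ht : ℒ [true]) (hnil : ℒ []) {w0 w1 : List Bool} {s : Bool}
    (h0 : h false = w0 ++ [s]) (h1 : h true = w1 ++ [s])
    (grow : ∀ k c, k + 1 ≤ (it h (k + 1) [c]).length) : HasCube ℒ := by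
  obtain ⟨D, hD⟩ : ∃ D, D = depth treeB00 + depth treeB01 + depth treeB10 + depth treeB11 + 3 :=
    ⟨_, rfl⟩
  have hQ := grow D s
  obtain ⟨Q1, q1, hq1⟩ := exists_last (it h (D + 1) [s]) (by
    intro hn; rw [hn] at hQ; simp at hQ)
  obtain ⟨Q2, q2, hq2⟩ := exists_last Q1 (by
    rintro rfl; rw [hq1] at hQ; simp at hQ; omega)
  have hq : it h (D + 1) [s] = Q2 ++ [q2, q1] := by rw [hq1, hq2]; simp
  have e0 : it h (D + 2) [false] = [] ++ (it h (D + 1) w0 ++ Q2) ++ [q2, q1] := by
    rw [it_single_succ, h0, it_append, hq]; simp
  have e1 : it h (D + 2) [true] = [] ++ (it h (D + 1) w1 ++ Q2) ++ [q2, q1] := by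
    rw [it_single_succ, h1, it_append, hq]; simp
  have l0 : D ≤ (it h (D + 1) w0 ++ Q2).length := by
    have := grow (D + 1) false
    rw [e0] at this
    simp only [List.length_append, List.length_cons, List.length_nil] at this ⊢
    omega
  have l1 : D ≤ (it h (D + 1) w1 ++ Q2).length := by
    have := grow (D + 1) true
    rw [e1] at this
    simp only [List.length_append, List.length_cons, List.length_nil] at this ⊢
    omega
  cases q2 with
  | false =>
    cases q1 with
    | false =>
      exact apply_tree (L.it _) hf ht hnil treeB00 _ _ _ _ checkB00 _ _ (by omega) (by omega) e0 e1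
    | true =>
      exact apply_tree (L.it _) hf ht hnil treeB01 _ _ _ _ checkB01 _ _ (by omega) (by omega) e0 e1
  | true =>
    cases q1 with
    | false =>
      exact apply_tree (L.it _) hf ht hnil treeB10 _ _ _ _ checkB10 _ _ (by omega) (by omega) e0 e1
    | true =>
      exact apply_tree (L.it _) hf ht hnil treeB11 _ _ _ _ checkB11 _ _ (by omega) (by omega) e0 e1

/-- case: both letters have growing images, different first letters and different last letters -/
lemma case_bifix {ℒ : List Bool → Prop} {h : Bool → List Bool} (L : Lang ℒ h)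
    (hf : ℒ [false]) (ht : ℒ [true]) (hnil : ℒ []) {w r w0 w1 : List Bool} {s0 s1 : Bool}
    (h0 : h false = false :: w) (h1 : h true = true :: r)
    (g0 : h false = w0 ++ [s0]) (g1 : h true = w1 ++ [s1]) (hs : s0 ≠ s1)
    (grow : ∀ k c, k + 1 ≤ (it h (k + 1) [c]).length) : HasCube ℒ := by
  obtain ⟨σ, hσ⟩ : ∃ σ : Bool → Bool, (∀ c, ∃ w, h c = w ++ [σ c]) ∧ ∀ n, σ^[2 * n] = id := by
    cases s0 with
    | false =>
      cases s1 with
      | false => exact absurd rfl hs
      | true =>
        refine ⟨id, ?_, fun n => Function.iterate_id _⟩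
        intro c
        cases c with
        | false => exact ⟨w0, g0⟩
        | true => exact ⟨w1, g1⟩
    | true =>
      cases s1 with
      | true => exact absurd rfl hs
      | false =>
        refine ⟨not, ?_, fun n => ?_⟩
        · intro c
          cases c with
          | false => exact ⟨w0, g0⟩
          | true => exact ⟨w1, g1⟩
        · exact Function.Involutive.iterate_two_mul Bool.involutive_not n
  obtain ⟨hσ1, hσ2⟩ := hσ
  obtain ⟨D, hD⟩ : ∃ D, D = depth treeC + 3 := ⟨_, rfl⟩
  have key : ∀ c, ∃ M : List Bool, depth treeC < M.length ∧ it h (2 * D) [c] = [c] ++ M ++ [c] := by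
    intro c
    refine decomp ?_ ?_ ?_
    · cases c with
      | false => exact it_head ⟨w, h0⟩ _
      | true => exact it_head ⟨r, h1⟩ _
    · obtain ⟨r', hr'⟩ := it_last hσ1 (2 * D) c
      rw [hσ2] at hr'
      exact ⟨r', hr'⟩
    · obtain ⟨k, hk⟩ : ∃ k, 2 * D = k + 1 := ⟨2 * D - 1, by omega⟩
      rw [hk]
      have := grow k c
      omega
  obtain ⟨M0, hM0, e0⟩ := key false
  obtain ⟨M1, hM1, e1⟩ := key true
  exact apply_tree (L.it _) hf ht hnil treeC _ _ _ _ checkC _ _ hM0 hM1 e0 e1

/-- case: the image of `true` is `true` -/
lemma case_fixed {ℒ : List Bool → Prop} {h : Bool → List Bool} (L : Lang ℒ h)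
    (hf : ℒ [false]) (ht : ℒ [true]) (hnil : ℒ []) {w : List Bool}
    (h0 : h false = false :: w) (h1 : h true = [true])
    (growth : ∀ k, k + 1 ≤ (it h k [false]).length) : HasCube ℒ := by
  obtain ⟨w0, s0, hs0⟩ := exists_last (h false) (by rw [h0]; simp)
  cases s0 with
  | true =>
    obtain ⟨z, j, hz⟩ := last_false (h false) (by rw [h0]; simp)
    have hj : 1 ≤ j := by
      by_contra hc
      have : j = 0 := by omega
      subst this
      rw [hs0] at hz
      simp at hz
    have hrep : ∀ i, (List.replicate i true).flatMap h = List.replicate i true := by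
      intro i
      induction i with
      | zero => rfl
      | succ i ih => rw [List.replicate_succ, List.flatMap_cons, h1, ih]; rfl
    have step : ∀ i, ℒ ([false] ++ List.replicate i true) →
        ℒ ([false] ++ List.replicate (j + i) true) := by
      intro i hi
      have := L.mor _ hi
      rw [List.flatMap_append, List.flatMap_singleton, hrep, hz] at this
      refine L.right (a := z) ?_
      rw [List.replicate_add]
      simpa using this
    have s1 := step _ (step _ (step 0 (by simpa using hf)))
    have s2 := L.right s1
    obtain ⟨k, hk⟩ : ∃ k, j + (j + (j + 0)) = 3 + k := ⟨j + j + j - 3, by omega⟩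
    rw [hk, List.replicate_add] at s2
    exact cube_of_single [true] (by simp) (L.left s2)
  | false =>
    obtain ⟨D, hD⟩ : ∃ D, D = depth treeD + 3 := ⟨_, rfl⟩
    have hT : ∀ k, it h k [true] = [true] := by
      intro k
      induction k with
      | zero => rfl
      | succ k ih => rw [it_single_succ, h1, ih]
    have hF : ∀ k, ∃ r, it h k [false] = r ++ [false] := by
      intro k
      induction k with
      | zero => exact ⟨[], rfl⟩
      | succ k ih =>
        obtain ⟨r, hr⟩ := ih
        refine ⟨it h k w0 ++ r, ?_⟩
        rw [it_single_succ, hs0, it_append, hr]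
        simp
    obtain ⟨M0, hM0, e0⟩ := decomp (g := it h D [false]) (c := false) (d := depth treeD)
      (it_head ⟨w, h0⟩ _) (hF _) (by have := growth D; omega)
    refine check_sound (L.it D) hf ht treeD _ checkD
      ⟨M0, List.replicate (depth treeD + 1) true, hM0, by simp, e0,
        fun hh => absurd hh (by simp), fun _ => hT D, fun _ hh => absurd rfl hh, hnil⟩

theorem abstract_main (ℒ : List Bool → Prop) (h : Bool → List Bool) (L : Lang ℒ h)
    (w : List Bool) (h0 : h false = false :: w)
    (growth : ∀ k, k + 1 ≤ (it h k [false]).length) (hf : ℒ [false]) : HasCube ℒ := by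
  by_contra hnc
  have hnil : ℒ [] := L.left (a := []) (b := [false]) hf
  -- the letter `true` occurs
  have ht : ℒ [true] := by
    obtain ⟨v1, h1⟩ := L.ext _ hf
    cases v1 with
    | true => exact L.right h1
    | false =>
      obtain ⟨v2, h2⟩ := L.ext _ h1
      cases v2 with
      | true => exact L.right h2
      | false => exact absurd (cube_of_single [false] (by simp) (by simpa using h2)) hnc
  by_cases hT0 : h true = []
  · -- the image of `true` is empty
    obtain ⟨j1, h1⟩ := ext_false L hnc hf
    obtain ⟨j2, h2⟩ := ext_false L hnc h1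
    have h3 := L.mor _ h2
    have hrep : ∀ j, (List.replicate j true).flatMap h = [] := by
      intro j
      induction j with
      | zero => rfl
      | succ j ih => rw [List.replicate_succ, List.flatMap_cons, hT0, ih]; rfl
    simp only [List.flatMap_append, hrep, List.flatMap_singleton, List.append_nil] at h3
    exact hnc (cube_of_single (h false) (by rw [h0]; simp) h3)
  by_cases hT1 : false ∈ h true
  · -- both letters grow
    have growT : ∀ k, k + 1 ≤ (it h (k + 1) [true]).length := by
      intro k
      obtain ⟨a, b, hab⟩ := List.append_of_mem hT1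
      have : h true = a ++ ([false] ++ b) := by rw [hab]; rfl
      rw [it_single_succ, this, it_append, it_append, List.length_append, List.length_append]
      have := growth k
      omega
    have growB : ∀ k c, k + 1 ≤ (it h (k + 1) [c]).length := by
      intro k c
      cases c with
      | false => have := growth (k + 1); omega
      | true => exact growT k
    obtain ⟨b, r, hbr⟩ : ∃ b r, h true = b :: r := List.exists_cons_of_ne_nil hT0
    cases b with
    | false => exact hnc (case_prefix L hf ht hnil h0 hbr growth)
    | true =>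
      obtain ⟨w0, s0, hs0⟩ := exists_last (h false) (by rw [h0]; simp)
      obtain ⟨w1, s1, hs1⟩ := exists_last (h true) hT0
      by_cases hs : s0 = s1
      · subst hs
        exact hnc (case_suffix L hf ht hnil hs0 hs1 growB)
      · exact hnc (case_bifix L hf ht hnil h0 hbr hs0 hs1 hs growB)
  · -- the image of `true` is a power of `true`
    have hrep := all_true _ hT1
    have hlen : 1 ≤ (h true).length := List.length_pos_iff.mpr hT0
    by_cases hl : (h true).length = 1
    · rw [hl] at hrep
      exact hnc (case_fixed L hf ht hnil h0 hrep growth)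
    · obtain ⟨k, hk⟩ : ∃ k, (h true).length = k + 2 := ⟨(h true).length - 2, by omega⟩
      rw [hk] at hrep
      have h1 := L.mor _ ht
      rw [List.flatMap_singleton, hrep, List.replicate_add] at h1
      have h2 := L.mor _ (L.right h1)
      have e : (List.replicate 2 true).flatMap h =
          [true] ++ [true] ++ [true] ++ List.replicate (k + (k + 1)) true := by
        have : (List.replicate 2 true).flatMap h = h true ++ h true := by
          simp [List.replicate_succ]
        rw [this, hrep, ← List.replicate_add]
        have e2 : k + 2 + (k + 2) = 3 + (k + (k + 1)) := by ring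
        rw [e2, List.replicate_add]
        rfl
      rw [e] at h2
      exact hnc (cube_of_single [true] (by simp) (L.left h2))

end Pool.Agent.Work.MP_f6f9f1_co
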