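import Pool.Agent.Work.MP_f6f9f1_co.Theory

set_option autoImplicit false
set_option maxRecDepth 100000

namespace Pool.Agent.Work.MP_f6f9f1_co

theorem checkC : check treeC ⟨[O], [I], [O], [I], [], 0⟩ = true := by decide +kernel

theorem checkD : check treeD ⟨[O], [], [O], [], [], 1⟩ = true := by decide +kernel

theorem checkA0 : check treeA0 ⟨[O, O], [O, O], [], [], [], 0⟩ = true := by decide +kernel

theorem checkA1 : check treeA1 ⟨[O, I], [O, I], [], [], [], 0⟩ = true := by decide +kernel

theorem checkB00 : check treeB00 ⟨[], [], [O, O], [O, O], [], 0⟩ = true := by decide +kernel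

theorem checkB01 : check treeB01 ⟨[], [], [O, I], [O, I], [], 0⟩ = true := by decide +kernel

theorem checkB10 : check treeB10 ⟨[], [], [I, O], [I, O], [], 0⟩ = true := by decide +kernel

theorem checkB11 : check treeB11 ⟨[], [], [I, I], [I, I], [], 0⟩ = true := by decide +kernel

end Pool.Agent.Work.MP_f6f9f1_co
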