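import Pool.Agent.Work.MP_f6f9f1_co.Trees

set_option autoImplicit false

namespace Pool.Agent.Work.MP_f6f9f1_co

section E2

variable {α β : Type*}

/-- list of adjacent pairs -/
def prs (u : List α) : List (α × α) := u.zip u.tail

/-- same letters and same adjacent pairs, with multiplicity -/
def E2 (u v : List α) : Prop := u.Perm v ∧ (prs u).Perm (prs v)

/-- junction pair -/
def jn (X Y : List α) : List (α × α) :=
  match X.getLast?, Y.head? with
  | some x, some y => [(x, y)]
  | _, _ => []

lemma prs_cons_cons (a b : α) (t : List α) : prs (a :: b :: t) = (a, b) :: prs (b :: t) := rfl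

lemma prs_append (X Y : List α) : (prs (X ++ Y)).Perm (prs X ++ prs Y ++ jn X Y) := by
  induction X with
  | nil => simp [prs, jn]
  | cons x X ih =>
    cases X with
    | nil =>
      cases Y with
      | nil => simp [prs, jn]
      | cons y Y =>
        have : jn [x] (y :: Y) = [(x, y)] := rfl
        rw [this, List.singleton_append, prs_cons_cons]
        have h2 : prs [x] = [] := rfl
        rw [h2, List.nil_append]
        exact (List.perm_append_singleton _ _).symm
    | cons x' X' =>
      have h1 : jn (x :: x' :: X') Y = jn (x' :: X') Y := by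
        unfold jn
        rw [List.getLast?_cons_cons]
      rw [List.cons_append, List.cons_append, prs_cons_cons, prs_cons_cons, h1]
      rw [List.cons_append, List.cons_append]
      exact ih.cons _

lemma jn_append_right (X Y Z : List α) (h : Y ≠ []) : jn X (Y ++ Z) = jn X Y := by
  unfold jn
  rw [List.head?_append_of_ne_nil _ h]

lemma prs_flatMap (τ : α → List β) (hτ : ∀ a, τ a ≠ []) (u : List α) :
    (prs (u.flatMap τ)).Perm
      (u.flatMap (fun a => prs (τ a)) ++ (prs u).flatMap (fun p => jn (τ p.1) (τ p.2))) := by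
  induction u with
  | nil => simp [prs]
  | cons a t ih =>
    cases t with
    | nil => simp [prs]
    | cons b t' =>
      rw [List.flatMap_cons]
      refine (prs_append _ _).trans ?_
      have h1 : jn (τ a) ((b :: t').flatMap τ) = jn (τ a) (τ b) := by
        rw [List.flatMap_cons, jn_append_right _ _ _ (hτ b)]
      have e1 : (a :: b :: t').flatMap (fun a => prs (τ a)) =
          prs (τ a) ++ (b :: t').flatMap (fun a => prs (τ a)) := rfl
      have e2 : (prs (a :: b :: t')).flatMap (fun p => jn (τ p.1) (τ p.2)) =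
          jn (τ a) (τ b) ++ (prs (b :: t')).flatMap (fun p => jn (τ p.1) (τ p.2)) := rfl
      rw [h1, e1, e2]
      have h2 := (ih.append_left (prs (τ a))).append_right (jn (τ a) (τ b))
      refine h2.trans ?_
      rw [← Multiset.coe_eq_coe]
      simp only [← Multiset.coe_add]
      abel

lemma E2.flatMap {u v : List α} (h : E2 u v) (τ : α → List β) (hτ : ∀ a, τ a ≠ []) :
    E2 (u.flatMap τ) (v.flatMap τ) := by
  refine ⟨h.1.flatMap_right τ, ?_⟩
  refine (prs_flatMap τ hτ u).trans (List.Perm.trans ?_ (prs_flatMap τ hτ v).symm)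
  exact (h.1.flatMap_right _).append (h.2.flatMap_right _)

lemma prs_map (f : α → β) (u : List α) : prs (u.map f) = (prs u).map (Prod.map f f) := by
  unfold prs
  rw [← List.map_tail, List.zip_map]

lemma E2.map {u v : List α} (h : E2 u v) (f : α → β) : E2 (u.map f) (v.map f) := by
  refine ⟨h.1.map f, ?_⟩
  rw [prs_map, prs_map]
  exact h.2.map _

lemma E2.refl (u : List α) : E2 u u := ⟨List.Perm.refl _, List.Perm.refl _⟩

end E2

/-- closure properties of the factor language -/
structure Lang (ℒ : List Bool → Prop) (g : Bool → List Bool) : Prop where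
  fac : ∀ a b c, ℒ (a ++ b ++ c) → ℒ b
  mor : ∀ u, ℒ u → ℒ (u.flatMap g)
  ext : ∀ u, ℒ u → ∃ v, ℒ (u ++ [v])

/-- the language contains a cube -/
def HasCube (ℒ : List Bool → Prop) : Prop :=
  ∃ u1 u2 u3 : List Bool, u1 ≠ [] ∧ u2 ≠ [] ∧ u3 ≠ [] ∧ E2 u1 u2 ∧ E2 u2 u3 ∧ ℒ (u1 ++ u2 ++ u3)

/-- states of the search -/
structure St where
  R0 : List Bool
  R1 : List Bool
  l0 : List Bool
  l1 : List Bool
  z : List Bool
  fl : ℕ

/-- embedding of binary words -/
def emb (u : List Bool) : List ℕ := u.map (fun b => cond b 1 0)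

/-- symbolic images -/
def gp (s : St) : Bool → List ℕ
  | false => emb s.R0 ++ [2] ++ emb s.l0
  | true => if s.fl = 0 then emb s.R1 ++ [3] ++ emb s.l1 else if s.fl = 1 then [1] else []

/-- interpretation of the symbols -/
def tau (M0 M1 : List Bool) : ℕ → List Bool
  | 0 => [false]
  | 1 => [true]
  | 2 => M0
  | 3 => M1
  | _ => [false]

/-- infix test -/
def isInfixB : List ℕ → List ℕ → Bool
  | p, [] => p.isEmpty
  | p, (a :: t) => p.isPrefixOf (a :: t) || isInfixB p t

/-- follow a chain of words -/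
def walk (s : St) : List Bool → List (List Bool) → Option (List Bool)
  | w, [] => some w
  | w, w' :: ch => if isInfixB (emb w') (w.flatMap (gp s)) = true then walk s w' ch else none

/-- boolean test of `E2` -/
def e2B (u v : List ℕ) : Bool := u.isPerm v && (prs u).isPerm (prs v)

/-- the start word -/
def start (s : St) (st : ℕ) : List Bool :=
  if st = 0 then [false] else if st = 1 then [true] else s.z

/-- cube test inside a word -/
def cubeB (y : List ℕ) (A l : ℕ) : Bool :=
  decide (1 ≤ l) && decide (A + 3 * l ≤ y.length) &&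
    e2B ((y.drop A).take l) ((y.drop (A + l)).take l) &&
    e2B ((y.drop (A + l)).take l) ((y.drop (A + 2 * l)).take l)

/-- leaf test -/
def leafOK (s : St) (st : ℕ) (ch : List (List Bool)) (A l : ℕ) : Bool :=
  match walk s (start s st) ch with
  | none => false
  | some w => cubeB (w.flatMap (gp s)) A l

/-- extension of a state -/
def extend (s : St) (k : ℕ) (v : Bool) : St :=
  match k with
  | 0 => ⟨s.R0 ++ [v], s.R1, s.l0, s.l1, s.z, s.fl⟩
  | 1 => ⟨s.R0, s.R1 ++ [v], s.l0, s.l1, s.z, s.fl⟩
  | 2 => ⟨s.R0, s.R1, v :: s.l0, s.l1, s.z, s.fl⟩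
  | 3 => ⟨s.R0, s.R1, s.l0, v :: s.l1, s.z, s.fl⟩
  | _ => ⟨s.R0, s.R1, s.l0, s.l1, s.z ++ [v], s.fl⟩

/-- tree test -/
def check : Tree → St → Bool
  | .L st ch A l, s => leafOK s st ch A l
  | .X k a b, s => check a (extend s k false) && check b (extend s k true)

/-- depth -/
def depth : Tree → ℕ
  | .L _ _ _ _ => 0
  | .X _ a b => max (depth a) (depth b) + 1

/-- a state is realised by a morphism -/
def Real (ℒ : List Bool → Prop) (g : Bool → List Bool) (s : St) (d : ℕ) : Prop :=
  ∃ M0 M1 : List Bool, d < M0.length ∧ d < M1.length ∧ g false = s.R0 ++ M0 ++ s.l0 ∧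
    (s.fl = 0 → g true = s.R1 ++ M1 ++ s.l1) ∧ (s.fl = 1 → g true = [true]) ∧
    (s.fl ≠ 0 → s.fl ≠ 1 → g true = []) ∧ ℒ s.z

lemma emb_flatMap (M0 M1 u : List Bool) : (emb u).flatMap (tau M0 M1) = u := by
  induction u with
  | nil => rfl
  | cons a t ih =>
    have : emb (a :: t) = cond a 1 0 :: emb t := rfl
    rw [this, List.flatMap_cons, ih]
    cases a <;> rfl

lemma gp_flatMap {g : Bool → List Bool} {s : St} {M0 M1 : List Bool}
    (h0 : g false = s.R0 ++ M0 ++ s.l0) (h1 : s.fl = 0 → g true = s.R1 ++ M1 ++ s.l1)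
    (h2 : s.fl = 1 → g true = [true]) (h3 : s.fl ≠ 0 → s.fl ≠ 1 → g true = []) (c : Bool) :
    (gp s c).flatMap (tau M0 M1) = g c := by
  cases c with
  | false =>
    rw [h0]
    simp only [gp, List.flatMap_append, emb_flatMap]
    simp [tau]
  | true =>
    simp only [gp]
    split_ifs with e1 e2
    · rw [h1 e1]
      simp only [List.flatMap_append, emb_flatMap]
      simp [tau]
    · rw [h2 e2]; rfl
    · rw [h3 e1 e2]; rfl

lemma word_flatMap {g : Bool → List Bool} {s : St} {τ : ℕ → List Bool}
    (h : ∀ c, (gp s c).flatMap τ = g c) (w : List Bool) :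
    (w.flatMap (gp s)).flatMap τ = w.flatMap g := by
  rw [List.flatMap_assoc]
  exact List.flatMap_congr fun c _ => h c

lemma isInfixB_sound (p q : List ℕ) (h : isInfixB p q = true) : ∃ a c, q = a ++ p ++ c := by
  induction q with
  | nil =>
    simp only [isInfixB, List.isEmpty_iff] at h
    exact ⟨[], [], by simp [h]⟩
  | cons x t ih =>
    simp only [isInfixB, Bool.or_eq_true] at h
    rcases h with h | h
    · rw [List.isPrefixOf_iff_prefix] at h
      obtain ⟨c, hc⟩ := h
      exact ⟨[], c, by simp [hc]⟩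
    · obtain ⟨a, c, hc⟩ := ih h
      exact ⟨x :: a, c, by simp [hc]⟩

lemma Lang.inner {ℒ : List Bool → Prop} {g : Bool → List Bool} (L : Lang ℒ g) {s : St}
    {τ : ℕ → List Bool} (h : ∀ c, (gp s c).flatMap τ = g c) {w : List Bool} (hw : ℒ w)
    {a p c : List ℕ} (hq : w.flatMap (gp s) = a ++ p ++ c) : ℒ (p.flatMap τ) := by
  have h1 := L.mor w hw
  rw [← word_flatMap h w, hq, List.flatMap_append, List.flatMap_append] at h1
  exact L.fac _ _ _ h1

lemma walk_sound {ℒ : List Bool → Prop} {g : Bool → List Bool} (L : Lang ℒ g) {s : St}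
    {M0 M1 : List Bool} (h : ∀ c, (gp s c).flatMap (tau M0 M1) = g c) (ch : List (List Bool)) :
    ∀ (w w' : List Bool), ℒ w → walk s w ch = some w' → ℒ w' := by
  induction ch with
  | nil =>
    intro w w' hw h'
    simp only [walk, Option.some.injEq] at h'
    rwa [← h']
  | cons v ch ih =>
    intro w w' hw h'
    simp only [walk] at h'
    split_ifs at h' with hi
    obtain ⟨a, c, hq⟩ := isInfixB_sound _ _ hi
    refine ih v w' ?_ h'
    have := L.inner h hw hq
    rwa [emb_flatMap] at this

lemma e2B_sound {u v : List ℕ} (h : e2B u v = true) : E2 u v := by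
  simp only [e2B, Bool.and_eq_true, List.isPerm_iff] at h
  exact h

lemma tau_ne {M0 M1 : List Bool} (h0 : M0 ≠ []) (h1 : M1 ≠ []) (n : ℕ) : tau M0 M1 n ≠ [] := by
  unfold tau
  split <;> simp_all

lemma flatMap_ne {τ : ℕ → List Bool} (hτ : ∀ n, τ n ≠ []) {y : List ℕ} (hy : y ≠ []) :
    y.flatMap τ ≠ [] := by
  cases y with
  | nil => exact absurd rfl hy
  | cons a t =>
    rw [List.flatMap_cons]
    intro h
    exact hτ a (List.append_eq_nil_iff.mp h).1

lemma drop_split (y : List ℕ) (B l : ℕ) : y.drop B = (y.drop B).take l ++ y.drop (B + l) := by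
  rw [← List.drop_drop, List.take_append_drop]

lemma cube_sound {ℒ : List Bool → Prop} {g : Bool → List Bool} (L : Lang ℒ g) {s : St}
    {M0 M1 : List Bool} (h : ∀ c, (gp s c).flatMap (tau M0 M1) = g c)
    (h0 : M0 ≠ []) (h1 : M1 ≠ []) {w : List Bool} (hw : ℒ w) {A l : ℕ}
    (hc : cubeB (w.flatMap (gp s)) A l = true) : HasCube ℒ := by
  simp only [cubeB, Bool.and_eq_true, decide_eq_true_eq] at hc
  obtain ⟨⟨⟨hl, hA⟩, he1⟩, he2⟩ := hc
  set y := w.flatMap (gp s) with hy
  have he1 := e2B_sound he1
  have he2 := e2B_sound he2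
  have hne : ∀ B, B + l ≤ y.length → (y.drop B).take l ≠ [] := by
    intro B hB hn
    have := congrArg List.length hn
    rw [List.length_take, List.length_drop, List.length_nil] at this
    omega
  have hτ := tau_ne h0 h1
  refine ⟨((y.drop A).take l).flatMap (tau M0 M1), ((y.drop (A + l)).take l).flatMap (tau M0 M1),
    ((y.drop (A + 2 * l)).take l).flatMap (tau M0 M1), flatMap_ne hτ (hne _ (by omega)),
    flatMap_ne hτ (hne _ (by omega)), flatMap_ne hτ (hne _ (by omega)), he1.flatMap _ hτ,
    he2.flatMap _ hτ, ?_⟩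
  rw [← List.flatMap_append, ← List.flatMap_append]
  refine L.inner h hw (a := y.take A) (c := y.drop (A + 3 * l)) ?_
  have e1 := drop_split y A l
  have e2 := drop_split y (A + l) l
  have e3 := drop_split y (A + 2 * l) l
  have i2 : A + l + l = A + 2 * l := by ring
  have i3 : A + 2 * l + l = A + 3 * l := by ring
  rw [i2] at e2
  rw [i3] at e3
  have e0 : y = y.take A ++ y.drop A := (List.take_append_drop A y).symm
  rw [e1, e2, e3] at e0
  simp only [List.append_assoc] at e0 ⊢
  exact e0

lemma Real.mono {ℒ : List Bool → Prop} {g : Bool → List Bool} {s : St} {d d' : ℕ} (h : d ≤ d')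
    (hr : Real ℒ g s d') : Real ℒ g s d := by
  obtain ⟨M0, M1, h0, h1, hh⟩ := hr
  exact ⟨M0, M1, lt_of_le_of_lt h h0, lt_of_le_of_lt h h1, hh⟩

lemma Real.extend {ℒ : List Bool → Prop} {g : Bool → List Bool} (L : Lang ℒ g) {s : St} {d : ℕ}
    (hr : Real ℒ g s (d + 1)) (k : ℕ) : ∃ v, Real ℒ g (extend s k v) d := by
  obtain ⟨M0, M1, h0, h1, g0, g1, g2, g3, hz⟩ := hr
  match k with
  | 0 =>
    cases M0 with
    | nil => simp at h0
    | cons v M0' =>
      refine ⟨v, M0', M1, by simpa using h0, by omega, ?_, g1, g2, g3, hz⟩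
      simp only [g0, MP_f6f9f1_co.extend]; simp
  | 1 =>
    cases M1 with
    | nil => simp at h1
    | cons v M1' =>
      refine ⟨v, M0, M1', by omega, by simpa using h1, g0, ?_, g2, g3, hz⟩
      intro h
      simp only [g1 h, MP_f6f9f1_co.extend]; simp
  | 2 =>
    rcases List.eq_nil_or_concat M0 with rfl | ⟨M0', v, rfl⟩
    · simp at h0
    · refine ⟨v, M0', M1, by simpa using h0, by omega, ?_, g1, g2, g3, hz⟩
      simp only [g0, MP_f6f9f1_co.extend]; simp
  | 3 =>
    rcases List.eq_nil_or_concat M1 with rfl | ⟨M1', v, rfl⟩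
    · simp at h1
    · refine ⟨v, M0, M1', by omega, by simpa using h1, g0, ?_, g2, g3, hz⟩
      intro h
      simp only [g1 h, MP_f6f9f1_co.extend]; simp
  | (n + 4) =>
    obtain ⟨v, hv⟩ := L.ext _ hz
    exact ⟨v, M0, M1, by omega, by omega, g0, g1, g2, g3, hv⟩

lemma check_sound {ℒ : List Bool → Prop} {g : Bool → List Bool} (L : Lang ℒ g)
    (hf : ℒ [false]) (ht : ℒ [true]) (t : Tree) :
    ∀ s, check t s = true → Real ℒ g s (depth t) → HasCube ℒ := by
  induction t with
  | L st ch A l =>
    intro s hc hr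
    obtain ⟨M0, M1, h0, h1, g0, g1, g2, g3, hz⟩ := hr
    have h := gp_flatMap g0 g1 g2 g3
    have hM0 : M0 ≠ [] := by rintro rfl; simp at h0
    have hM1 : M1 ≠ [] := by rintro rfl; simp at h1
    simp only [check, leafOK] at hc
    split at hc
    · exact absurd hc (by simp)
    · rename_i w hw
      refine cube_sound L h hM0 hM1 (walk_sound L h ch _ _ ?_ hw) hc
      unfold start
      split_ifs
      · exact hf
      · exact ht
      · exact hz
  | X k a b iha ihb =>
    intro s hc hr
    simp only [check, Bool.and_eq_true] at hc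
    obtain ⟨v, hv⟩ := Real.extend (d := max (depth a) (depth b)) L hr k
    cases v with
    | false => exact iha _ hc.1 (hv.mono (le_max_left _ _))
    | true => exact ihb _ hc.2 (hv.mono (le_max_right _ _))

end Pool.Agent.Work.MP_f6f9f1_co
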