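import Mathlib

set_option autoImplicit false

namespace Pool.Agent.Work.MP_f6f9f1_co

/-- certificate trees -/
inductive Tree
  | L (s : ℕ) (ch : List (List Bool)) (A l : ℕ)
  | X (k : ℕ) (a b : Tree)

abbrev O : Bool := false
abbrev I : Bool := true

def treeA0 : Tree :=
 (.X 4
 (.X 4
 (.X 4
 (.L 2 [] 0 3)
 (.X 4
 (.X 4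
 (.X 4
 (.L 2 [] 9 3)
 (.X 4
 (.X 4
 (.X 4
 (.L 2 [] 18 3)
 (.L 2 [] 0 9))
 (.X 4
 (.L 2 [] 7 6)
 (.L 2 [] 7 6)))
 (.X 4
 (.X 4
 (.L 2 [] 7 6)
 (.L 2 [] 7 6))
 (.L 2 [] 15 3))))
 (.X 4
 (.X 4
 (.X 4
 (.L 2 [] 15 3)
 (.X 4
 (.L 2 [] 7 6)
 (.L 2 [] 7 6)))
 (.L 2 [] 3 6))
 (.X 4
 (.X 4
 (.L 2 [] 4 6)
 (.L 2 [] 4 6))
 (.L 2 [] 12 3))))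
 (.X 4
 (.X 4
 (.X 4
 (.L 2 [] 12 3)
 (.X 4
 (.L 2 [] 4 6)
 (.L 2 [] 4 6)))
 (.X 4
 (.X 4
 (.L 2 [] 4 6)
 (.L 2 [] 4 6))
 (.X 4
 (.X 4
 (.X 4
 (.L 2 [] 21 3)
 (.X 4
 (.L 2 [] 13 6)
 (.L 2 [] 13 6)))
 (.X 4
 (.X 4
 (.L 2 [] 13 6)
 (.L 2 [] 13 6))
 (.L 2 [] 3 9)))
 (.L 2 [] 15 3))))
 (.L 2 [] 6 3))))
 (.X 4
 (.X 4
 (.X 4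
 (.L 2 [] 6 3)
 (.X 4
 (.X 4
 (.X 4
 (.L 2 [] 15 3)
 (.X 4
 (.L 2 [] 0 9)
 (.X 4
 (.X 4
 (.L 2 [] 13 6)
 (.L 2 [] 13 6))
 (.L 2 [] 21 3))))
 (.X 4
 (.L 2 [] 4 6)
 (.L 2 [] 4 6)))
 (.X 4
 (.X 4
 (.L 2 [] 4 6)
 (.L 2 [] 4 6))
 (.L 2 [] 12 3))))
 (.X 4
 (.X 4
 (.X 4
 (.L 2 [] 12 3)
 (.X 4
 (.L 2 [] 4 6)
 (.L 2 [] 4 6)))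
 (.L 2 [] 0 6))
 (.X 4
 (.X 4
 (.L 2 [] 1 6)
 (.L 2 [] 1 6))
 (.L 2 [] 9 3))))
 (.X 4
 (.X 4
 (.X 4
 (.L 2 [] 9 3)
 (.X 4
 (.L 2 [] 1 6)
 (.L 2 [] 1 6)))
 (.X 4
 (.X 4
 (.L 2 [] 1 6)
 (.L 2 [] 1 6))
 (.X 4
 (.X 4
 (.X 4
 (.L 2 [] 18 3)
 (.X 4
 (.L 2 [] 10 6)
 (.L 2 [] 10 6)))
 (.X 4
 (.X 4
 (.L 2 [] 10 6)
 (.L 2 [] 10 6))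
 (.L 2 [] 0 9)))
 (.L 2 [] 12 3))))
 (.L 2 [] 3 3))))
 (.X 4
 (.X 4
 (.X 4
 (.L 2 [] 3 3)
 (.X 4
 (.X 4
 (.X 4
 (.L 2 [] 12 3)
 (.X 4
 (.X 4
 (.L 2 [] 0 9)
 (.X 4
 (.L 2 [] 10 6)
 (.L 2 [] 10 6)))
 (.X 4
 (.X 4
 (.L 2 [] 10 6)
 (.L 2 [] 10 6))
 (.L 2 [] 18 3))))
 (.X 4
 (.L 2 [] 1 6)
 (.L 2 [] 1 6)))
 (.X 4
 (.X 4
 (.L 2 [] 1 6)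
 (.L 2 [] 1 6))
 (.L 2 [] 9 3))))
 (.X 4
 (.X 4
 (.X 4
 (.L 2 [] 9 3)
 (.X 4
 (.L 2 [] 1 6)
 (.L 2 [] 1 6)))
 (.X 4
 (.L 2 [] 0 6)
 (.X 4
 (.X 4
 (.L 2 [] 4 6)
 (.L 2 [] 4 6))
 (.L 2 [] 12 3))))
 (.X 4
 (.X 4
 (.X 4
 (.L 2 [] 12 3)
 (.X 4
 (.L 2 [] 4 6)
 (.L 2 [] 4 6)))
 (.X 4
 (.X 4
 (.L 2 [] 4 6)
 (.L 2 [] 4 6))
 (.X 4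
 (.X 4
 (.X 4
 (.L 2 [] 21 3)
 (.X 4
 (.L 2 [] 13 6)
 (.L 2 [] 13 6)))
 (.L 2 [] 0 9))
 (.L 2 [] 15 3))))
 (.L 2 [] 6 3))))
 (.X 4
 (.X 4
 (.X 4
 (.L 2 [] 6 3)
 (.X 4
 (.X 4
 (.X 4
 (.L 2 [] 15 3)
 (.X 4
 (.X 4
 (.L 2 [] 3 9)
 (.X 4
 (.L 2 [] 13 6)
 (.L 2 [] 13 6)))
 (.X 4
 (.X 4
 (.L 2 [] 13 6)
 (.L 2 [] 13 6))
 (.L 2 [] 21 3))))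
 (.X 4
 (.L 2 [] 4 6)
 (.L 2 [] 4 6)))
 (.X 4
 (.X 4
 (.L 2 [] 4 6)
 (.L 2 [] 4 6))
 (.L 2 [] 12 3))))
 (.X 4
 (.X 4
 (.X 4
 (.L 2 [] 12 3)
 (.X 4
 (.L 2 [] 4 6)
 (.L 2 [] 4 6)))
 (.X 4
 (.L 2 [] 3 6)
 (.X 4
 (.X 4
 (.L 2 [] 7 6)
 (.L 2 [] 7 6))
 (.L 2 [] 15 3))))
 (.X 4
 (.X 4
 (.X 4
 (.L 2 [] 15 3)
 (.X 4
 (.L 2 [] 7 6)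
 (.L 2 [] 7 6)))
 (.X 4
 (.X 4
 (.L 2 [] 7 6)
 (.L 2 [] 7 6))
 (.X 4
 (.L 2 [] 0 9)
 (.L 2 [] 18 3))))
 (.L 2 [] 9 3))))
 (.L 2 [] 0 3))))

def treeA1 : Tree :=
 (.X 4
 (.X 4
 (.X 4
 (.L 2 [] 0 3)
 (.X 4
 (.X 4
 (.X 4
 (.L 2 [] 9 3)
 (.X 4
 (.X 4
 (.X 4
 (.L 2 [] 18 3)
 (.L 2 [] 0 9))
 (.X 4
 (.L 2 [] 7 6)
 (.L 2 [] 7 6)))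
 (.X 4
 (.X 4
 (.L 2 [] 7 6)
 (.L 2 [] 7 6))
 (.L 2 [] 15 3))))
 (.X 4
 (.X 4
 (.X 4
 (.L 2 [] 15 3)
 (.X 4
 (.L 2 [] 7 6)
 (.L 2 [] 7 6)))
 (.L 2 [] 3 6))
 (.X 4
 (.X 4
 (.L 2 [] 4 6)
 (.L 2 [] 4 6))
 (.L 2 [] 12 3))))
 (.X 4
 (.X 4
 (.X 4
 (.L 2 [] 12 3)
 (.X 4
 (.L 2 [] 4 6)
 (.L 2 [] 4 6)))
 (.X 4
 (.X 4
 (.L 2 [] 4 6)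
 (.L 2 [] 4 6))
 (.X 4
 (.X 4
 (.X 4
 (.L 2 [] 21 3)
 (.X 4
 (.L 2 [] 13 6)
 (.L 2 [] 13 6)))
 (.X 4
 (.X 4
 (.L 2 [] 13 6)
 (.L 2 [] 13 6))
 (.L 2 [] 3 9)))
 (.L 2 [] 15 3))))
 (.L 2 [] 6 3))))
 (.X 4
 (.X 4
 (.X 4
 (.L 2 [] 6 3)
 (.X 4
 (.X 4
 (.X 4
 (.L 2 [] 15 3)
 (.X 4
 (.L 2 [] 0 9)
 (.X 4
 (.X 4
 (.L 2 [] 13 6)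
 (.L 2 [] 13 6))
 (.L 2 [] 21 3))))
 (.X 4
 (.L 2 [] 4 6)
 (.L 2 [] 4 6)))
 (.X 4
 (.X 4
 (.L 2 [] 4 6)
 (.L 2 [] 4 6))
 (.L 2 [] 12 3))))
 (.X 4
 (.X 4
 (.X 4
 (.L 2 [] 12 3)
 (.X 4
 (.L 2 [] 4 6)
 (.L 2 [] 4 6)))
 (.L 2 [] 0 6))
 (.X 4
 (.X 4
 (.L 2 [] 1 6)
 (.L 2 [] 1 6))
 (.L 2 [] 9 3))))
 (.X 4
 (.X 4
 (.X 4
 (.L 2 [] 9 3)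
 (.X 4
 (.L 2 [] 1 6)
 (.L 2 [] 1 6)))
 (.X 4
 (.X 4
 (.L 2 [] 1 6)
 (.L 2 [] 1 6))
 (.X 4
 (.X 4
 (.X 4
 (.L 2 [] 18 3)
 (.X 4
 (.L 2 [] 10 6)
 (.L 2 [] 10 6)))
 (.X 4
 (.X 4
 (.L 2 [] 10 6)
 (.L 2 [] 10 6))
 (.L 2 [] 0 9)))
 (.L 2 [] 12 3))))
 (.L 2 [] 3 3))))
 (.X 4
 (.X 4
 (.X 4
 (.L 2 [] 3 3)
 (.X 4
 (.X 4
 (.X 4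
 (.L 2 [] 12 3)
 (.X 4
 (.X 4
 (.L 2 [] 0 9)
 (.X 4
 (.L 2 [] 10 6)
 (.L 2 [] 10 6)))
 (.X 4
 (.X 4
 (.L 2 [] 10 6)
 (.L 2 [] 10 6))
 (.L 2 [] 18 3))))
 (.X 4
 (.L 2 [] 1 6)
 (.L 2 [] 1 6)))
 (.X 4
 (.X 4
 (.L 2 [] 1 6)
 (.L 2 [] 1 6))
 (.L 2 [] 9 3))))
 (.X 4
 (.X 4
 (.X 4
 (.L 2 [] 9 3)
 (.X 4
 (.L 2 [] 1 6)
 (.L 2 [] 1 6)))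
 (.X 4
 (.L 2 [] 0 6)
 (.X 4
 (.X 4
 (.L 2 [] 4 6)
 (.L 2 [] 4 6))
 (.L 2 [] 12 3))))
 (.X 4
 (.X 4
 (.X 4
 (.L 2 [] 12 3)
 (.X 4
 (.L 2 [] 4 6)
 (.L 2 [] 4 6)))
 (.X 4
 (.X 4
 (.L 2 [] 4 6)
 (.L 2 [] 4 6))
 (.X 4
 (.X 4
 (.X 4
 (.L 2 [] 21 3)
 (.X 4
 (.L 2 [] 13 6)
 (.L 2 [] 13 6)))
 (.L 2 [] 0 9))
 (.L 2 [] 15 3))))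
 (.L 2 [] 6 3))))
 (.X 4
 (.X 4
 (.X 4
 (.L 2 [] 6 3)
 (.X 4
 (.X 4
 (.X 4
 (.L 2 [] 15 3)
 (.X 4
 (.X 4
 (.L 2 [] 3 9)
 (.X 4
 (.L 2 [] 13 6)
 (.L 2 [] 13 6)))
 (.X 4
 (.X 4
 (.L 2 [] 13 6)
 (.L 2 [] 13 6))
 (.L 2 [] 21 3))))
 (.X 4
 (.L 2 [] 4 6)
 (.L 2 [] 4 6)))
 (.X 4
 (.X 4
 (.L 2 [] 4 6)
 (.L 2 [] 4 6))
 (.L 2 [] 12 3))))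
 (.X 4
 (.X 4
 (.X 4
 (.L 2 [] 12 3)
 (.X 4
 (.L 2 [] 4 6)
 (.L 2 [] 4 6)))
 (.X 4
 (.L 2 [] 3 6)
 (.X 4
 (.X 4
 (.L 2 [] 7 6)
 (.L 2 [] 7 6))
 (.L 2 [] 15 3))))
 (.X 4
 (.X 4
 (.X 4
 (.L 2 [] 15 3)
 (.X 4
 (.L 2 [] 7 6)
 (.L 2 [] 7 6)))
 (.X 4
 (.X 4
 (.L 2 [] 7 6)
 (.L 2 [] 7 6))
 (.X 4
 (.L 2 [] 0 9)
 (.L 2 [] 18 3))))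
 (.L 2 [] 9 3))))
 (.L 2 [] 0 3))))

def treeB00 : Tree :=
 (.X 4
 (.X 4
 (.X 4
 (.L 2 [] 0 3)
 (.X 4
 (.X 4
 (.X 4
 (.L 2 [] 7 3)
 (.X 4
 (.X 4
 (.X 4
 (.L 2 [] 16 3)
 (.L 2 [] 0 9))
 (.L 2 [] 5 6))
 (.X 4
 (.L 2 [] 5 6)
 (.L 2 [] 13 3))))
 (.X 4
 (.X 4
 (.X 4
 (.L 2 [] 13 3)
 (.L 2 [] 5 6))
 (.L 2 [] 1 6))
 (.X 4
 (.L 2 [] 2 6)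
 (.L 2 [] 10 3))))
 (.X 4
 (.X 4
 (.X 4
 (.L 2 [] 10 3)
 (.L 2 [] 2 6))
 (.X 4
 (.L 2 [] 2 6)
 (.X 4
 (.X 4
 (.X 4
 (.L 2 [] 19 3)
 (.L 2 [] 11 6))
 (.X 4
 (.L 2 [] 11 6)
 (.L 2 [] 1 9)))
 (.L 2 [] 13 3))))
 (.L 2 [] 4 3))))
 (.X 4
 (.X 4
 (.X 4
 (.L 2 [] 4 3)
 (.X 4
 (.X 4
 (.X 4
 (.L 2 [] 13 3)
 (.X 4
 (.L 2 [] 0 9)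
 (.X 4
 (.L 2 [] 11 6)
 (.L 2 [] 19 3))))
 (.L 2 [] 2 6))
 (.X 4
 (.L 2 [] 2 6)
 (.L 2 [] 10 3))))
 (.X 4
 (.X 4
 (.X 4
 (.L 2 [] 10 3)
 (.L 2 [] 2 6))
 (.L 2 [] 0 6))
 (.X 4
 (.X 4
 (.X 4
 (.L 2 [] 13 3)
 (.L 2 [] 5 6))
 (.X 4
 (.L 2 [] 5 6)
 (.X 4
 (.X 4
 (.X 4
 (.L 2 [] 22 3)
 (.L 2 [] 14 6))
 (.L 2 [] 1 9))
 (.L 2 [] 16 3))))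
 (.L 2 [] 7 3))))
 (.X 4
 (.X 4
 (.X 4
 (.L 2 [] 7 3)
 (.X 4
 (.X 4
 (.X 4
 (.L 2 [] 16 3)
 (.X 4
 (.X 4
 (.L 2 [] 4 9)
 (.L 2 [] 14 6))
 (.X 4
 (.L 2 [] 14 6)
 (.L 2 [] 22 3))))
 (.L 2 [] 5 6))
 (.X 4
 (.L 2 [] 5 6)
 (.L 2 [] 13 3))))
 (.X 4
 (.X 4
 (.X 4
 (.L 2 [] 13 3)
 (.L 2 [] 5 6))
 (.X 4
 (.L 2 [] 4 6)
 (.X 4
 (.L 2 [] 8 6)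
 (.L 2 [] 16 3))))
 (.X 4
 (.X 4
 (.X 4
 (.L 2 [] 16 3)
 (.L 2 [] 8 6))
 (.X 4
 (.L 2 [] 8 6)
 (.L 2 [] 0 9)))
 (.L 2 [] 10 3))))
 (.L 2 [] 1 3))))
 (.X 4
 (.X 4
 (.X 4
 (.L 2 [] 1 3)
 (.X 4
 (.X 4
 (.X 4
 (.L 2 [] 10 3)
 (.X 4
 (.X 4
 (.L 2 [] 0 9)
 (.L 2 [] 8 6))
 (.X 4
 (.L 2 [] 8 6)
 (.L 2 [] 16 3))))
 (.X 4
 (.X 4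
 (.X 4
 (.L 2 [] 16 3)
 (.L 2 [] 8 6))
 (.L 2 [] 4 6))
 (.X 4
 (.L 2 [] 5 6)
 (.L 2 [] 13 3))))
 (.X 4
 (.X 4
 (.X 4
 (.L 2 [] 13 3)
 (.L 2 [] 5 6))
 (.X 4
 (.L 2 [] 5 6)
 (.X 4
 (.X 4
 (.X 4
 (.L 2 [] 22 3)
 (.L 2 [] 14 6))
 (.X 4
 (.L 2 [] 14 6)
 (.L 2 [] 4 9)))
 (.L 2 [] 16 3))))
 (.L 2 [] 7 3))))
 (.X 4
 (.X 4
 (.X 4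
 (.L 2 [] 7 3)
 (.X 4
 (.X 4
 (.X 4
 (.L 2 [] 16 3)
 (.X 4
 (.L 2 [] 1 9)
 (.X 4
 (.L 2 [] 14 6)
 (.L 2 [] 22 3))))
 (.L 2 [] 5 6))
 (.X 4
 (.L 2 [] 5 6)
 (.L 2 [] 13 3))))
 (.X 4
 (.L 2 [] 0 6)
 (.X 4
 (.L 2 [] 2 6)
 (.L 2 [] 10 3))))
 (.X 4
 (.X 4
 (.X 4
 (.L 2 [] 10 3)
 (.L 2 [] 2 6))
 (.X 4
 (.L 2 [] 2 6)
 (.X 4
 (.X 4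
 (.X 4
 (.L 2 [] 19 3)
 (.L 2 [] 11 6))
 (.L 2 [] 0 9))
 (.L 2 [] 13 3))))
 (.L 2 [] 4 3))))
 (.X 4
 (.X 4
 (.X 4
 (.L 2 [] 4 3)
 (.X 4
 (.X 4
 (.X 4
 (.L 2 [] 13 3)
 (.X 4
 (.X 4
 (.L 2 [] 1 9)
 (.L 2 [] 11 6))
 (.X 4
 (.L 2 [] 11 6)
 (.L 2 [] 19 3))))
 (.L 2 [] 2 6))
 (.X 4
 (.L 2 [] 2 6)
 (.L 2 [] 10 3))))
 (.X 4
 (.X 4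
 (.X 4
 (.L 2 [] 10 3)
 (.L 2 [] 2 6))
 (.X 4
 (.L 2 [] 1 6)
 (.X 4
 (.L 2 [] 5 6)
 (.L 2 [] 13 3))))
 (.X 4
 (.X 4
 (.X 4
 (.L 2 [] 13 3)
 (.L 2 [] 5 6))
 (.X 4
 (.L 2 [] 5 6)
 (.X 4
 (.L 2 [] 0 9)
 (.L 2 [] 16 3))))
 (.L 2 [] 7 3))))
 (.L 2 [] 0 3))))

def treeB01 : Tree :=
 (.X 4
 (.X 4
 (.X 4
 (.L 2 [] 0 3)
 (.X 4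
 (.X 4
 (.X 4
 (.L 2 [] 7 3)
 (.X 4
 (.X 4
 (.X 4
 (.L 2 [] 16 3)
 (.L 2 [] 0 9))
 (.L 2 [] 5 6))
 (.X 4
 (.L 2 [] 5 6)
 (.L 2 [] 13 3))))
 (.X 4
 (.X 4
 (.X 4
 (.L 2 [] 13 3)
 (.L 2 [] 5 6))
 (.L 2 [] 1 6))
 (.X 4
 (.L 2 [] 2 6)
 (.L 2 [] 10 3))))
 (.X 4
 (.X 4
 (.X 4
 (.L 2 [] 10 3)
 (.L 2 [] 2 6))
 (.X 4
 (.L 2 [] 2 6)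
 (.X 4
 (.X 4
 (.X 4
 (.L 2 [] 19 3)
 (.L 2 [] 11 6))
 (.X 4
 (.L 2 [] 11 6)
 (.L 2 [] 1 9)))
 (.L 2 [] 13 3))))
 (.L 2 [] 4 3))))
 (.X 4
 (.X 4
 (.X 4
 (.L 2 [] 4 3)
 (.X 4
 (.X 4
 (.X 4
 (.L 2 [] 13 3)
 (.X 4
 (.L 2 [] 0 9)
 (.X 4
 (.L 2 [] 11 6)
 (.L 2 [] 19 3))))
 (.L 2 [] 2 6))
 (.X 4
 (.L 2 [] 2 6)
 (.L 2 [] 10 3))))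
 (.X 4
 (.X 4
 (.X 4
 (.L 2 [] 10 3)
 (.L 2 [] 2 6))
 (.L 2 [] 0 6))
 (.X 4
 (.X 4
 (.X 4
 (.L 2 [] 13 3)
 (.L 2 [] 5 6))
 (.X 4
 (.L 2 [] 5 6)
 (.X 4
 (.X 4
 (.X 4
 (.L 2 [] 22 3)
 (.L 2 [] 14 6))
 (.L 2 [] 1 9))
 (.L 2 [] 16 3))))
 (.L 2 [] 7 3))))
 (.X 4
 (.X 4
 (.X 4
 (.L 2 [] 7 3)
 (.X 4
 (.X 4
 (.X 4
 (.L 2 [] 16 3)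
 (.X 4
 (.X 4
 (.L 2 [] 4 9)
 (.L 2 [] 14 6))
 (.X 4
 (.L 2 [] 14 6)
 (.L 2 [] 22 3))))
 (.L 2 [] 5 6))
 (.X 4
 (.L 2 [] 5 6)
 (.L 2 [] 13 3))))
 (.X 4
 (.X 4
 (.X 4
 (.L 2 [] 13 3)
 (.L 2 [] 5 6))
 (.X 4
 (.L 2 [] 4 6)
 (.X 4
 (.L 2 [] 8 6)
 (.L 2 [] 16 3))))
 (.X 4
 (.X 4
 (.X 4
 (.L 2 [] 16 3)
 (.L 2 [] 8 6))
 (.X 4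
 (.L 2 [] 8 6)
 (.L 2 [] 0 9)))
 (.L 2 [] 10 3))))
 (.L 2 [] 1 3))))
 (.X 4
 (.X 4
 (.X 4
 (.L 2 [] 1 3)
 (.X 4
 (.X 4
 (.X 4
 (.L 2 [] 10 3)
 (.X 4
 (.X 4
 (.L 2 [] 0 9)
 (.L 2 [] 8 6))
 (.X 4
 (.L 2 [] 8 6)
 (.L 2 [] 16 3))))
 (.X 4
 (.X 4
 (.X 4
 (.L 2 [] 16 3)
 (.L 2 [] 8 6))
 (.L 2 [] 4 6))
 (.X 4
 (.L 2 [] 5 6)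
 (.L 2 [] 13 3))))
 (.X 4
 (.X 4
 (.X 4
 (.L 2 [] 13 3)
 (.L 2 [] 5 6))
 (.X 4
 (.L 2 [] 5 6)
 (.X 4
 (.X 4
 (.X 4
 (.L 2 [] 22 3)
 (.L 2 [] 14 6))
 (.X 4
 (.L 2 [] 14 6)
 (.L 2 [] 4 9)))
 (.L 2 [] 16 3))))
 (.L 2 [] 7 3))))
 (.X 4
 (.X 4
 (.X 4
 (.L 2 [] 7 3)
 (.X 4
 (.X 4
 (.X 4
 (.L 2 [] 16 3)
 (.X 4
 (.L 2 [] 1 9)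
 (.X 4
 (.L 2 [] 14 6)
 (.L 2 [] 22 3))))
 (.L 2 [] 5 6))
 (.X 4
 (.L 2 [] 5 6)
 (.L 2 [] 13 3))))
 (.X 4
 (.L 2 [] 0 6)
 (.X 4
 (.L 2 [] 2 6)
 (.L 2 [] 10 3))))
 (.X 4
 (.X 4
 (.X 4
 (.L 2 [] 10 3)
 (.L 2 [] 2 6))
 (.X 4
 (.L 2 [] 2 6)
 (.X 4
 (.X 4
 (.X 4
 (.L 2 [] 19 3)
 (.L 2 [] 11 6))
 (.L 2 [] 0 9))
 (.L 2 [] 13 3))))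
 (.L 2 [] 4 3))))
 (.X 4
 (.X 4
 (.X 4
 (.L 2 [] 4 3)
 (.X 4
 (.X 4
 (.X 4
 (.L 2 [] 13 3)
 (.X 4
 (.X 4
 (.L 2 [] 1 9)
 (.L 2 [] 11 6))
 (.X 4
 (.L 2 [] 11 6)
 (.L 2 [] 19 3))))
 (.L 2 [] 2 6))
 (.X 4
 (.L 2 [] 2 6)
 (.L 2 [] 10 3))))
 (.X 4
 (.X 4
 (.X 4
 (.L 2 [] 10 3)
 (.L 2 [] 2 6))
 (.X 4
 (.L 2 [] 1 6)
 (.X 4
 (.L 2 [] 5 6)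
 (.L 2 [] 13 3))))
 (.X 4
 (.X 4
 (.X 4
 (.L 2 [] 13 3)
 (.L 2 [] 5 6))
 (.X 4
 (.L 2 [] 5 6)
 (.X 4
 (.L 2 [] 0 9)
 (.L 2 [] 16 3))))
 (.L 2 [] 7 3))))
 (.L 2 [] 0 3))))

def treeB10 : Tree :=
 (.X 4
 (.X 4
 (.X 4
 (.L 2 [] 0 3)
 (.X 4
 (.X 4
 (.X 4
 (.L 2 [] 7 3)
 (.X 4
 (.X 4
 (.X 4
 (.L 2 [] 16 3)
 (.L 2 [] 0 9))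
 (.L 2 [] 5 6))
 (.X 4
 (.L 2 [] 5 6)
 (.L 2 [] 13 3))))
 (.X 4
 (.X 4
 (.X 4
 (.L 2 [] 13 3)
 (.L 2 [] 5 6))
 (.L 2 [] 1 6))
 (.X 4
 (.L 2 [] 2 6)
 (.L 2 [] 10 3))))
 (.X 4
 (.X 4
 (.X 4
 (.L 2 [] 10 3)
 (.L 2 [] 2 6))
 (.X 4
 (.L 2 [] 2 6)
 (.X 4
 (.X 4
 (.X 4
 (.L 2 [] 19 3)
 (.L 2 [] 11 6))
 (.X 4
 (.L 2 [] 11 6)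
 (.L 2 [] 1 9)))
 (.L 2 [] 13 3))))
 (.L 2 [] 4 3))))
 (.X 4
 (.X 4
 (.X 4
 (.L 2 [] 4 3)
 (.X 4
 (.X 4
 (.X 4
 (.L 2 [] 13 3)
 (.X 4
 (.L 2 [] 0 9)
 (.X 4
 (.L 2 [] 11 6)
 (.L 2 [] 19 3))))
 (.L 2 [] 2 6))
 (.X 4
 (.L 2 [] 2 6)
 (.L 2 [] 10 3))))
 (.X 4
 (.X 4
 (.X 4
 (.L 2 [] 10 3)
 (.L 2 [] 2 6))
 (.L 2 [] 0 6))
 (.X 4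
 (.X 4
 (.X 4
 (.L 2 [] 13 3)
 (.L 2 [] 5 6))
 (.X 4
 (.L 2 [] 5 6)
 (.X 4
 (.X 4
 (.X 4
 (.L 2 [] 22 3)
 (.L 2 [] 14 6))
 (.L 2 [] 1 9))
 (.L 2 [] 16 3))))
 (.L 2 [] 7 3))))
 (.X 4
 (.X 4
 (.X 4
 (.L 2 [] 7 3)
 (.X 4
 (.X 4
 (.X 4
 (.L 2 [] 16 3)
 (.X 4
 (.X 4
 (.L 2 [] 4 9)
 (.L 2 [] 14 6))
 (.X 4
 (.L 2 [] 14 6)
 (.L 2 [] 22 3))))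
 (.L 2 [] 5 6))
 (.X 4
 (.L 2 [] 5 6)
 (.L 2 [] 13 3))))
 (.X 4
 (.X 4
 (.X 4
 (.L 2 [] 13 3)
 (.L 2 [] 5 6))
 (.X 4
 (.L 2 [] 4 6)
 (.X 4
 (.L 2 [] 8 6)
 (.L 2 [] 16 3))))
 (.X 4
 (.X 4
 (.X 4
 (.L 2 [] 16 3)
 (.L 2 [] 8 6))
 (.X 4
 (.L 2 [] 8 6)
 (.L 2 [] 0 9)))
 (.L 2 [] 10 3))))
 (.L 2 [] 1 3))))
 (.X 4
 (.X 4
 (.X 4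
 (.L 2 [] 1 3)
 (.X 4
 (.X 4
 (.X 4
 (.L 2 [] 10 3)
 (.X 4
 (.X 4
 (.L 2 [] 0 9)
 (.L 2 [] 8 6))
 (.X 4
 (.L 2 [] 8 6)
 (.L 2 [] 16 3))))
 (.X 4
 (.X 4
 (.X 4
 (.L 2 [] 16 3)
 (.L 2 [] 8 6))
 (.L 2 [] 4 6))
 (.X 4
 (.L 2 [] 5 6)
 (.L 2 [] 13 3))))
 (.X 4
 (.X 4
 (.X 4
 (.L 2 [] 13 3)
 (.L 2 [] 5 6))
 (.X 4
 (.L 2 [] 5 6)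
 (.X 4
 (.X 4
 (.X 4
 (.L 2 [] 22 3)
 (.L 2 [] 14 6))
 (.X 4
 (.L 2 [] 14 6)
 (.L 2 [] 4 9)))
 (.L 2 [] 16 3))))
 (.L 2 [] 7 3))))
 (.X 4
 (.X 4
 (.X 4
 (.L 2 [] 7 3)
 (.X 4
 (.X 4
 (.X 4
 (.L 2 [] 16 3)
 (.X 4
 (.L 2 [] 1 9)
 (.X 4
 (.L 2 [] 14 6)
 (.L 2 [] 22 3))))
 (.L 2 [] 5 6))
 (.X 4
 (.L 2 [] 5 6)
 (.L 2 [] 13 3))))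
 (.X 4
 (.L 2 [] 0 6)
 (.X 4
 (.L 2 [] 2 6)
 (.L 2 [] 10 3))))
 (.X 4
 (.X 4
 (.X 4
 (.L 2 [] 10 3)
 (.L 2 [] 2 6))
 (.X 4
 (.L 2 [] 2 6)
 (.X 4
 (.X 4
 (.X 4
 (.L 2 [] 19 3)
 (.L 2 [] 11 6))
 (.L 2 [] 0 9))
 (.L 2 [] 13 3))))
 (.L 2 [] 4 3))))
 (.X 4
 (.X 4
 (.X 4
 (.L 2 [] 4 3)
 (.X 4
 (.X 4
 (.X 4
 (.L 2 [] 13 3)
 (.X 4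
 (.X 4
 (.L 2 [] 1 9)
 (.L 2 [] 11 6))
 (.X 4
 (.L 2 [] 11 6)
 (.L 2 [] 19 3))))
 (.L 2 [] 2 6))
 (.X 4
 (.L 2 [] 2 6)
 (.L 2 [] 10 3))))
 (.X 4
 (.X 4
 (.X 4
 (.L 2 [] 10 3)
 (.L 2 [] 2 6))
 (.X 4
 (.L 2 [] 1 6)
 (.X 4
 (.L 2 [] 5 6)
 (.L 2 [] 13 3))))
 (.X 4
 (.X 4
 (.X 4
 (.L 2 [] 13 3)
 (.L 2 [] 5 6))
 (.X 4
 (.L 2 [] 5 6)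
 (.X 4
 (.L 2 [] 0 9)
 (.L 2 [] 16 3))))
 (.L 2 [] 7 3))))
 (.L 2 [] 0 3))))

def treeB11 : Tree :=
 (.X 4
 (.X 4
 (.X 4
 (.L 2 [] 0 3)
 (.X 4
 (.X 4
 (.X 4
 (.L 2 [] 7 3)
 (.X 4
 (.X 4
 (.X 4
 (.L 2 [] 16 3)
 (.L 2 [] 0 9))
 (.L 2 [] 5 6))
 (.X 4
 (.L 2 [] 5 6)
 (.L 2 [] 13 3))))
 (.X 4
 (.X 4
 (.X 4
 (.L 2 [] 13 3)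
 (.L 2 [] 5 6))
 (.L 2 [] 1 6))
 (.X 4
 (.L 2 [] 2 6)
 (.L 2 [] 10 3))))
 (.X 4
 (.X 4
 (.X 4
 (.L 2 [] 10 3)
 (.L 2 [] 2 6))
 (.X 4
 (.L 2 [] 2 6)
 (.X 4
 (.X 4
 (.X 4
 (.L 2 [] 19 3)
 (.L 2 [] 11 6))
 (.X 4
 (.L 2 [] 11 6)
 (.L 2 [] 1 9)))
 (.L 2 [] 13 3))))
 (.L 2 [] 4 3))))
 (.X 4
 (.X 4
 (.X 4
 (.L 2 [] 4 3)
 (.X 4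
 (.X 4
 (.X 4
 (.L 2 [] 13 3)
 (.X 4
 (.L 2 [] 0 9)
 (.X 4
 (.L 2 [] 11 6)
 (.L 2 [] 19 3))))
 (.L 2 [] 2 6))
 (.X 4
 (.L 2 [] 2 6)
 (.L 2 [] 10 3))))
 (.X 4
 (.X 4
 (.X 4
 (.L 2 [] 10 3)
 (.L 2 [] 2 6))
 (.L 2 [] 0 6))
 (.X 4
 (.X 4
 (.X 4
 (.L 2 [] 13 3)
 (.L 2 [] 5 6))
 (.X 4
 (.L 2 [] 5 6)
 (.X 4
 (.X 4
 (.X 4
 (.L 2 [] 22 3)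
 (.L 2 [] 14 6))
 (.L 2 [] 1 9))
 (.L 2 [] 16 3))))
 (.L 2 [] 7 3))))
 (.X 4
 (.X 4
 (.X 4
 (.L 2 [] 7 3)
 (.X 4
 (.X 4
 (.X 4
 (.L 2 [] 16 3)
 (.X 4
 (.X 4
 (.L 2 [] 4 9)
 (.L 2 [] 14 6))
 (.X 4
 (.L 2 [] 14 6)
 (.L 2 [] 22 3))))
 (.L 2 [] 5 6))
 (.X 4
 (.L 2 [] 5 6)
 (.L 2 [] 13 3))))
 (.X 4
 (.X 4
 (.X 4
 (.L 2 [] 13 3)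
 (.L 2 [] 5 6))
 (.X 4
 (.L 2 [] 4 6)
 (.X 4
 (.L 2 [] 8 6)
 (.L 2 [] 16 3))))
 (.X 4
 (.X 4
 (.X 4
 (.L 2 [] 16 3)
 (.L 2 [] 8 6))
 (.X 4
 (.L 2 [] 8 6)
 (.L 2 [] 0 9)))
 (.L 2 [] 10 3))))
 (.L 2 [] 1 3))))
 (.X 4
 (.X 4
 (.X 4
 (.L 2 [] 1 3)
 (.X 4
 (.X 4
 (.X 4
 (.L 2 [] 10 3)
 (.X 4
 (.X 4
 (.L 2 [] 0 9)
 (.L 2 [] 8 6))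
 (.X 4
 (.L 2 [] 8 6)
 (.L 2 [] 16 3))))
 (.X 4
 (.X 4
 (.X 4
 (.L 2 [] 16 3)
 (.L 2 [] 8 6))
 (.L 2 [] 4 6))
 (.X 4
 (.L 2 [] 5 6)
 (.L 2 [] 13 3))))
 (.X 4
 (.X 4
 (.X 4
 (.L 2 [] 13 3)
 (.L 2 [] 5 6))
 (.X 4
 (.L 2 [] 5 6)
 (.X 4
 (.X 4
 (.X 4
 (.L 2 [] 22 3)
 (.L 2 [] 14 6))
 (.X 4
 (.L 2 [] 14 6)
 (.L 2 [] 4 9)))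
 (.L 2 [] 16 3))))
 (.L 2 [] 7 3))))
 (.X 4
 (.X 4
 (.X 4
 (.L 2 [] 7 3)
 (.X 4
 (.X 4
 (.X 4
 (.L 2 [] 16 3)
 (.X 4
 (.L 2 [] 1 9)
 (.X 4
 (.L 2 [] 14 6)
 (.L 2 [] 22 3))))
 (.L 2 [] 5 6))
 (.X 4
 (.L 2 [] 5 6)
 (.L 2 [] 13 3))))
 (.X 4
 (.L 2 [] 0 6)
 (.X 4
 (.L 2 [] 2 6)
 (.L 2 [] 10 3))))
 (.X 4
 (.X 4
 (.X 4
 (.L 2 [] 10 3)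
 (.L 2 [] 2 6))
 (.X 4
 (.L 2 [] 2 6)
 (.X 4
 (.X 4
 (.X 4
 (.L 2 [] 19 3)
 (.L 2 [] 11 6))
 (.L 2 [] 0 9))
 (.L 2 [] 13 3))))
 (.L 2 [] 4 3))))
 (.X 4
 (.X 4
 (.X 4
 (.L 2 [] 4 3)
 (.X 4
 (.X 4
 (.X 4
 (.L 2 [] 13 3)
 (.X 4
 (.X 4
 (.L 2 [] 1 9)
 (.L 2 [] 11 6))
 (.X 4
 (.L 2 [] 11 6)
 (.L 2 [] 19 3))))
 (.L 2 [] 2 6))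
 (.X 4
 (.L 2 [] 2 6)
 (.L 2 [] 10 3))))
 (.X 4
 (.X 4
 (.X 4
 (.L 2 [] 10 3)
 (.L 2 [] 2 6))
 (.X 4
 (.L 2 [] 1 6)
 (.X 4
 (.L 2 [] 5 6)
 (.L 2 [] 13 3))))
 (.X 4
 (.X 4
 (.X 4
 (.L 2 [] 13 3)
 (.L 2 [] 5 6))
 (.X 4
 (.L 2 [] 5 6)
 (.X 4
 (.L 2 [] 0 9)
 (.L 2 [] 16 3))))
 (.L 2 [] 7 3))))
 (.L 2 [] 0 3))))

def treeC : Tree :=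
 (.X 0
 (.L 0 [[O,O]] 3 1)
 (.X 0
 (.X 2
 (.L 0 [[O,O]] 4 1)
 (.X 1
 (.X 3
 (.X 0
 (.X 0
 (.L 0 [] 2 1)
 (.X 2
 (.X 1
 (.X 3
 (.L 0 [[I,O],[O,I,O,I,O,O,I]] 7 16)
 (.L 0 [[I,O]] 4 2))
 (.L 0 [[O,I]] 6 2))
 (.X 1
 (.X 3
 (.X 0
 (.L 0 [[I,O],[I,O,I,O,O,I,O]] 1 18)
 (.X 0
 (.X 2
 (.X 1
 (.L 1 [] 1 1)
 (.L 0 [[I,I],[O,I,I,O,O,I]] 5 18))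
 (.L 0 [] 8 1))
 (.L 0 [] 4 1)))
 (.L 0 [[I,O]] 4 2))
 (.X 3
 (.X 0
 (.X 0
 (.L 0 [[O,O]] 9 3)
 (.X 2
 (.X 1
 (.L 0 [[O,I]] 10 2)
 (.X 3
 (.L 1 [] 5 1)
 (.X 0
 (.X 0
 (.L 0 [[O,O],[O,O,I,O,O,I,O,I,O]] 8 34)
 (.L 0 [] 3 2))
 (.X 0
 (.X 2
 (.X 1
 (.X 3
 (.L 0 [[O,I],[I,O,I,O,I,I,O]] 7 26)
 (.X 0
 (.X 0
 (.L 0 [] 8 1)
 (.X 2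
 (.L 0 [] 12 1)
 (.L 0 [[I,O,O,I,I,O]] 1 27)))
 (.X 0
 (.X 2
 (.L 0 [] 12 1)
 (.L 0 [[I,O,O,I,I,O]] 1 27))
 (.X 2
 (.L 0 [] 12 1)
 (.L 0 [[I,O,O,I,I,O]] 1 27)))))
 (.L 1 [] 2 1))
 (.X 1
 (.X 3
 (.L 0 [[I,O],[I,O,O,I,O,I,O,O,I,O,I]] 6 43)
 (.L 0 [[I,O],[O,I,O,I,O,O,I]] 11 26))
 (.L 1 [] 2 1)))
 (.L 0 [] 6 1)))))
 (.L 0 [] 8 1)))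
 (.X 0
 (.X 2
 (.X 1
 (.L 0 [[O,I]] 10 2)
 (.X 3
 (.L 1 [] 5 1)
 (.X 0
 (.X 0
 (.L 0 [] 6 1)
 (.X 2
 (.X 1
 (.X 3
 (.L 0 [[O,I],[I,O,I,O,I,I,O]] 7 26)
 (.X 0
 (.X 0
 (.X 2
 (.L 0 [] 12 1)
 (.L 0 [[I,O,O,I,I,O]] 1 27))
 (.X 2
 (.L 0 [] 12 1)
 (.L 0 [[I,O,O,I,I,O]] 1 27)))
 (.L 0 [[O,O,I,I,O,O,I,I]] 11 29)))
 (.L 1 [] 2 1))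
 (.X 1
 (.X 3
 (.X 0
 (.L 0 [[O,O],[O,I,I,O,O,I,O,O,I,I,O,O,I,O]] 11 56)
 (.L 0 [[O,O,I,I,O,O,I,I]] 12 29))
 (.L 0 [[I,O],[O,I,O,I,O,O,I]] 11 26))
 (.L 1 [] 2 1))))
 (.X 0
 (.X 2
 (.X 1
 (.X 3
 (.L 0 [[O,I],[I,O,I,O,I,I,O]] 7 26)
 (.X 0
 (.X 0
 (.L 0 [] 8 1)
 (.X 2
 (.L 0 [] 12 1)
 (.L 0 [[I,O,O,I,I,O]] 1 27)))
 (.X 0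
 (.L 0 [] 5 2)
 (.X 2
 (.L 0 [] 12 1)
 (.L 0 [[I,O,O,I,I,O]] 1 27)))))
 (.L 1 [] 2 1))
 (.X 1
 (.X 3
 (.X 0
 (.L 0 [[O,O],[O,I,I,O,O,I,O,O,I,I,O,I,O,O]] 11 56)
 (.X 0
 (.L 0 [] 5 2)
 (.X 2
 (.L 0 [[O,I,I,O,I,O]] 1 27)
 (.L 0 [[O,I],[I,I,O,I,I,O,I,O,I,I]] 1 40))))
 (.L 0 [[I,O],[O,I,O,I,O,O,I]] 11 26))
 (.L 1 [] 2 1)))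
 (.X 2
 (.X 1
 (.X 3
 (.L 0 [[O,I],[I,O,I,O,I,I,O]] 7 26)
 (.X 0
 (.X 0
 (.L 0 [[I,O],[O,O,I,O,I,O,O,I,I,O,I,I,O,O]] 14 58)
 (.X 2
 (.L 0 [] 12 1)
 (.L 0 [[I,O,O,I,I,O]] 1 27)))
 (.L 0 [] 7 1)))
 (.L 1 [] 2 1))
 (.X 1
 (.X 3
 (.X 0
 (.X 0
 (.L 0 [[I,O],[O,O,I,O,I,O,O,I,I,O,I,I,O,O]] 14 58)
 (.X 2
 (.L 0 [[O,I],[O,I,I,O,I,O]] 1 27)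
 (.L 0 [[O,I],[I,I,O,I,I,O,I,O,I,I]] 1 40)))
 (.L 0 [] 7 1))
 (.L 0 [[I,O],[O,I,O,I,O,O,I]] 11 26))
 (.L 1 [] 2 1)))))))
 (.L 0 [] 8 1))
 (.L 0 [] 4 1)))
 (.L 0 [[I,O]] 4 2)))))
 (.L 0 [[I,O]] 3 2))
 (.L 1 [[I,I]] 3 1))
 (.L 1 [[I,I]] 3 1)))
 (.X 2
 (.L 0 [[O,O]] 4 1)
 (.X 1
 (.X 3
 (.X 0
 (.X 0
 (.X 2
 (.X 1
 (.X 3
 (.X 0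
 (.L 0 [] 3 1)
 (.L 0 [[O,I,I,O,O,I]] 4 15))
 (.X 0
 (.L 0 [] 3 1)
 (.X 0
 (.L 0 [[I,O],[O,I,O,I,I,O]] 6 16)
 (.X 2
 (.X 1
 (.L 1 [] 1 1)
 (.L 0 [[O,I,I,O,O,I]] 5 18))
 (.L 0 [[O,I]] 8 2)))))
 (.L 0 [[O,I]] 6 2))
 (.X 1
 (.L 0 [[O,O],[I,I,O,O,I,I,O,O]] 4 17)
 (.X 3
 (.L 0 [[O,O],[I,I,O,O,I,I,O,O]] 4 18)
 (.L 0 [[I,O],[I,O,I,O,I,I,O]] 5 16))))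
 (.X 2
 (.X 1
 (.X 3
 (.X 0
 (.L 0 [[I,O],[O,I,O,I,I,O]] 5 15)
 (.X 0
 (.X 2
 (.X 1
 (.L 1 [] 1 1)
 (.L 0 [[O,I],[O,I,O,I,O,O,I]] 10 20))
 (.L 0 [[O,I]] 8 2))
 (.L 0 [] 4 1)))
 (.X 0
 (.L 0 [[I,O],[O,I,O,I,I,O]] 5 15)
 (.X 0
 (.X 2
 (.X 1
 (.L 1 [] 1 1)
 (.X 3
 (.L 0 [[I,O]] 5 2)
 (.L 0 [[I,O],[I,I,O,I,O,I,I,O,I,I]] 1 30)))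
 (.L 0 [[O,I]] 8 2))
 (.L 0 [] 4 1))))
 (.L 0 [[O,I]] 6 2))
 (.L 0 [[I,O],[O,I,O,I,I,O]] 4 12)))
 (.L 0 [] 1 1))
 (.L 0 [[I,I]] 3 1))
 (.L 0 [[I,I]] 3 1)))))

def treeD : Tree :=
 (.X 0
 (.L 0 [[O,O]] 3 1)
 (.X 0
 (.X 2
 (.L 0 [[O,O]] 4 1)
 (.L 0 [[O,I,O]] 4 2))
 (.X 2
 (.L 0 [[O,O]] 4 1)
 (.X 0
 (.X 0
 (.L 0 [[O,O],[O,O,I,I,O]] 4 7)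
 (.L 0 [[O,I,I,O]] 6 3))
 (.L 0 [] 1 1)))))

end Pool.Agent.Work.MP_f6f9f1_co
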